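import Pool.Agent.Helper8.SPV.Stmts

/-! # Module BASI: a basis of `k(U, X, Y)` over `k(U)`, integral over `k0[U]` -/

set_option autoImplicit false

namespace Pool.Agent.Helper8.SPV

open IntermediateField (adjoin)

open scoped IntermediateField.algebraAdjoinAdjoin in
theorem BASI_alg (k0 K : Type) [Field k0] [Field K] [Algebra k0 K] (u z : K)
    (h : IsAlgebraic (adjoin k0 {u}) z) : IsAlgebraic (Algebra.adjoin k0 {u}) z :=
  (IsFractionRing.isAlgebraic_iff (Algebra.adjoin k0 ({u} : Set K)) (adjoin k0 ({u} : Set K)) K).2 h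

theorem st_BASI : ST_BASI := by
  intro k0 k K _ _ _ _ _ _ _ _ u X Y hu hX hY
  classical
  -- the inclusion of `k0(u)` in `k(u)`
  have hle : ∀ z : K, z ∈ adjoin k0 ({u} : Set K) → z ∈ adjoin k ({u} : Set K) := by
    intro z hz
    have : adjoin k0 ({u} : Set K) ≤ (adjoin k ({u} : Set K)).restrictScalars k0 := by
      rw [IntermediateField.adjoin_le_iff]
      exact IntermediateField.subset_adjoin k _
    exact this hz
  let ι : (adjoin k0 ({u} : Set K)) →+* (adjoin k ({u} : Set K)) :=
    { toFun := fun z => ⟨z.1, hle z.1 z.2⟩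
      map_one' := rfl
      map_zero' := rfl
      map_mul' := fun _ _ => rfl
      map_add' := fun _ _ => rfl }
  have hup : ∀ z : K, IsAlgebraic (adjoin k0 ({u} : Set K)) z →
      IsAlgebraic (adjoin k ({u} : Set K)) z := by
    intro z hz
    exact hz.ringHom_of_comp_eq ι (RingHom.id K) ι.injective rfl
  have hXF := hup X hX
  have hYF := hup Y hY
  -- the field `E`
  set F := adjoin k ({u} : Set K) with hF
  set E := adjoin F ({X, Y} : Set K) with hE
  have halg : ∀ z ∈ ({X, Y} : Set K), IsAlgebraic F z := by
    intro z hz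
    rcases hz with rfl | hz
    · exact hXF
    · rw [Set.mem_singleton_iff] at hz
      rw [hz]; exact hYF
  have hEadj : E.toSubalgebra = Algebra.adjoin F ({X, Y} : Set K) :=
    IntermediateField.adjoin_toSubalgebra_of_isAlgebraic halg
  have hfd : FiniteDimensional F E := by
    refine IntermediateField.finiteDimensional_adjoin fun z hz => (halg z hz).isIntegral
  obtain ⟨B, hBsub, hBspan, hBli⟩ := exists_linearIndependent F
    ((Submonoid.closure ({X, Y} : Set K) : Submonoid K) : Set K)
  have hspanE : (Submodule.span F B : Set K) = (E : Set K) := by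
    rw [hBspan, ← Algebra.adjoin_eq_span, ← hEadj]
    rfl
  have hspanE' : Submodule.span F B = Subalgebra.toSubmodule E.toSubalgebra := by
    rw [hBspan, ← Algebra.adjoin_eq_span, ← hEadj]
  let bas : Module.Basis B F (Submodule.span F (Set.range ((↑) : B → K))) := Module.Basis.span hBli
  have hr : Submodule.span F (Set.range ((↑) : B → K)) = Subalgebra.toSubmodule E.toSubalgebra := by
    rw [Subtype.range_coe]
    exact hspanE'
  have hfin2 : Module.Finite F (Submodule.span F (Set.range ((↑) : B → K))) := by
    rw [hr]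
    exact hfd
  have hcard : Module.finrank F (Submodule.span F (Set.range ((↑) : B → K))) = Nat.card B :=
    Module.finrank_eq_nat_card_basis bas
  have hcard2 : Nat.card B = Module.finrank F E := by
    rw [← hcard, hr]
    rfl
  have : Finite B := Module.Finite.finite_basis bas
  let e : B ≃ Fin (Module.finrank F E) := Finite.equivFinOfCardEq hcard2
  -- elements of `B`
  have hBmem : ∀ z ∈ B, z ∈ adjoin k0 ({u, X, Y} : Set K) ∧
      IsAlgebraic (adjoin k0 ({u} : Set K)) z := by
    intro z hz
    have hz2 := hBsub hz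
    refine Submonoid.closure_induction (motive := fun z _ => z ∈ adjoin k0 ({u, X, Y} : Set K) ∧
      IsAlgebraic (adjoin k0 ({u} : Set K)) z) ?_ ?_ ?_ hz2
    · intro w hw
      rcases hw with rfl | hw
      · exact ⟨IntermediateField.subset_adjoin k0 _ (by simp), hX⟩
      · rw [Set.mem_singleton_iff] at hw
        rw [hw]
        exact ⟨IntermediateField.subset_adjoin k0 _ (by simp), hY⟩
    · exact ⟨one_mem _, isAlgebraic_one⟩
    · intro a b _ _ ha hb
      exact ⟨mul_mem ha.1 hb.1, ha.2.mul hb.2⟩
  have hchoose : ∀ z : B, ∃ r : Algebra.adjoin k0 ({u} : Set K), r ≠ 0 ∧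
      IsIntegral (Algebra.adjoin k0 ({u} : Set K)) (r • (z : K)) := fun z =>
    (BASI_alg k0 K u z (hBmem z z.2).2).exists_integral_multiple
  choose r hr0 hrint using hchoose
  have hrF : ∀ z : B, (r z : K) ∈ F := by
    intro z
    apply hle
    exact IntermediateField.algebra_adjoin_le_adjoin k0 _ (r z).2
  have hunit : ∀ z : B, ∃ w : Fˣ, ((w : F) : K) = r z := by
    intro z
    refine ⟨Units.mk0 ⟨r z, hrF z⟩ ?_, rfl⟩
    intro h0
    apply hr0 z
    have := congrArg Subtype.val h0
    exact Subtype.ext this
  choose w hw using hunit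
  refine ⟨fun i => (r (e.symm i) : K) * ((e.symm i : B) : K), ?_, ?_⟩
  · have h1 := (hBli.units_smul w).comp e.symm e.symm.injective
    have h3 : (fun i => (r (e.symm i) : K) * ((e.symm i : B) : K)) =
        (w • (Subtype.val : B → K)) ∘ e.symm := by
      funext i
      change _ = ((w (e.symm i) : F) : K) * _
      rw [hw]
    rw [h3]
    exact h1
  · intro i
    refine ⟨?_, ?_⟩
    · refine mul_mem ?_ (hBmem _ (e.symm i).2).1
      have h2 : adjoin k0 ({u} : Set K) ≤ adjoin k0 ({u, X, Y} : Set K) :=
        IntermediateField.adjoin.mono k0 _ _ (by simp)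
      exact h2 (IntermediateField.algebra_adjoin_le_adjoin k0 _ (r _).2)
    · exact hrint _

end Pool.Agent.Helper8.SPV
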