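import Pool.Agent.Helper8.SPV.Stmts

/-! # Module DER: the package of derivations -/

set_option autoImplicit false

namespace Pool.Agent.Helper8.SPV

open IntermediateField (adjoin)

/-- A derivation which kills a subfield is linear over it. -/
theorem DER_up (R F K : Type) [CommRing R] [Field F] [Field K] [Algebra R K] [Algebra F K]
    (D : Derivation R K K) (h : ∀ c : F, D (algebraMap F K c) = 0) :
    ∃ D2 : Derivation F K K, ∀ x, D2 x = D x := by
  let L : K →ₗ[F] K :=
    { toFun := fun x => D x
      map_add' := fun x y => map_add D x y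
      map_smul' := fun c x => by
        rw [Algebra.smul_def, D.leibniz, h c, smul_zero, add_zero, smul_eq_mul, RingHom.id_apply,
          Algebra.smul_def] }
  exact ⟨Derivation.mk' L fun a b => D.leibniz a b, fun x => rfl⟩

/-- The kernel of a derivation `k → K` as an intermediate field. -/
theorem DER_ker (R k K : Type) [Field R] [Field k] [Field K] [Algebra R k] [Algebra R K]
    [Algebra k K] [IsScalarTower R k K] (D : Derivation R K K) (s : Set k)
    (h : ∀ c ∈ s, D (algebraMap k K c) = 0) :
    ∀ c ∈ adjoin R s, D (algebraMap k K c) = 0 := by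
  let S : IntermediateField R k :=
    { carrier := {c | D (algebraMap k K c) = 0}
      mul_mem' := by
        intro a b ha hb
        change D (algebraMap k K (a * b)) = 0
        rw [map_mul, D.leibniz]
        rw [show D (algebraMap k K a) = 0 from ha, show D (algebraMap k K b) = 0 from hb]
        simp
      add_mem' := by
        intro a b ha hb
        change D (algebraMap k K (a + b)) = 0
        rw [map_add, map_add]
        rw [show D (algebraMap k K a) = 0 from ha, show D (algebraMap k K b) = 0 from hb]
        simp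
      algebraMap_mem' := by
        intro r
        change D (algebraMap k K (algebraMap R k r)) = 0
        rw [← IsScalarTower.algebraMap_apply R k K, Derivation.map_algebraMap]
      inv_mem' := by
        intro a ha
        change D (algebraMap k K a⁻¹) = 0
        rw [map_inv₀, Derivation.leibniz_inv]
        rw [show D (algebraMap k K a) = 0 from ha]
        simp }
  intro c hc
  have : adjoin R s ≤ S := IntermediateField.adjoin_le_iff.2 h
  exact this hc

theorem st_DER (hEXT : ST_DEREXT) (hALG : ST_DERALG) (hPD : ST_PD) (hFFT : ST_FFT) : ST_DER := by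
  intro k0 k K _ _ _ _ _ _ _ _ _ b hb hK T W hW hT
  classical
  have hcK : CharZero K := charZero_of_injective_algebraMap (algebraMap k K).injective
  have hW0 : W ≠ 0 := by
    intro h0
    apply hT
    rw [h0] at hW
    refine ⟨Polynomial.X ^ 3 + 1, ?_, ?_⟩
    · exact (Polynomial.monic_X_pow_add_C (1 : k) (by norm_num : (3 : ℕ) ≠ 0)).ne_zero
    · simp only [map_add, map_pow, Polynomial.aeval_X, map_one]
      rw [← hW]; ring
  have h2W : (2 : K) * W ≠ 0 := mul_ne_zero two_ne_zero hW0
  -- `δ`
  obtain ⟨δ0, hδ0, hδT0⟩ := (hEXT k K (0 : Derivation ℤ k K)).2 T hT (2 * W)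
  obtain ⟨δ, hδ⟩ := DER_up ℤ k K δ0 (fun c => by rw [hδ0]; rfl)
  have hδT : δ T = 2 * W := by rw [hδ, hδT0]
  -- the derivative of the equation
  have key : ∀ (D : K → K), (∀ x y, D (x * y) = x * D y + y * D x) → (∀ x y, D (x + y) = D x + D y) →
      D 1 = 0 → 2 * W * D W = 3 * T ^ 2 * D T := by
    intro D hm ha h1
    have h3 : D (W ^ 2) = D (T ^ 3 + 1) := by rw [hW]
    rw [ha, h1, add_zero, pow_two, hm, show T ^ 3 = T * (T * T) by ring, hm, hm] at h3
    linear_combination h3
  have hδW : δ W = 3 * T ^ 2 := by
    have h4 := key δ (fun x y => by rw [δ.leibniz]; simp only [smul_eq_mul])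
      (fun x y => map_add δ x y) δ.map_one_eq_zero
    rw [hδT] at h4
    apply mul_left_cancel₀ h2W
    linear_combination h4
  -- the `D j`
  obtain ⟨P, hP⟩ := hPD k0 k b hb
  have hDex : ∀ j : Fin 10, ∃ D : Derivation k0 K K,
      (∀ c : k, D (algebraMap k K c) = algebraMap k K (P j c)) ∧ D T = 0 := by
    intro j
    let L : k →ₗ[ℤ] K :=
      { toFun := fun c => algebraMap k K (P j c)
        map_add' := fun x y => by rw [map_add, map_add]
        map_smul' := fun n x => by
          simp only [zsmul_eq_mul, RingHom.id_apply]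
          rw [Derivation.leibniz, Derivation.map_intCast]
          simp }
    let D1 : Derivation ℤ k K := Derivation.mk' L (fun a c => by
      change algebraMap k K (P j (a * c)) = a • algebraMap k K (P j c) + c • algebraMap k K (P j a)
      rw [Derivation.leibniz, map_add, smul_eq_mul, smul_eq_mul, map_mul, map_mul,
        Algebra.smul_def, Algebra.smul_def])
    obtain ⟨D2, hD2, hD2T⟩ := (hEXT k K D1).2 T hT 0
    obtain ⟨D3, hD3⟩ := DER_up ℤ k0 K D2 (fun c => by
      rw [IsScalarTower.algebraMap_apply k0 k K, hD2]
      change algebraMap k K (P j (algebraMap k0 k c)) = 0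
      rw [Derivation.map_algebraMap, map_zero])
    refine ⟨D3, fun c => ?_, ?_⟩
    · rw [hD3, hD2]; rfl
    · rw [hD3, hD2T]
  choose D hDk hDT using hDex
  have hDW : ∀ j, D j W = 0 := by
    intro j
    have h4 := key (D j) (fun x y => by rw [(D j).leibniz]; simp only [smul_eq_mul])
      (fun x y => map_add (D j) x y) (D j).map_one_eq_zero
    rw [hDT, mul_zero] at h4
    exact (mul_eq_zero.1 h4).resolve_left h2W
  have hDb : ∀ i j, D j (algebraMap k K (b i)) = if i = j then 1 else 0 := by
    intro i j
    rw [hDk, hP]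
    split_ifs
    · rw [map_one]
    · rw [map_zero]
  -- `δ` over `k0`
  obtain ⟨δ', hδ'⟩ := DER_up k k0 K δ (fun c => by
    rw [IsScalarTower.algebraMap_apply k0 k K, Derivation.map_algebraMap])
  refine ⟨{ δ := δ, δT := hδT, δW := hδW, D := D, Db := hDb, DT := hDT, DW := hDW
            Dk := fun j c => ⟨P j c, hDk j c⟩, span := ?_ }⟩
  intro D' f
  -- the difference
  set E : Derivation k0 K K :=
    D' - ∑ j : Fin 10, D' (algebraMap k K (b j)) • D j - (D' T / (2 * W)) • δ' with hE
  have hEval : ∀ g : K, E g = D' g - ∑ j : Fin 10, D' (algebraMap k K (b j)) * D j g -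
      D' T / (2 * W) * δ g := by
    intro g
    have hsum : ∀ s : Finset (Fin 10), (∑ j ∈ s, D' (algebraMap k K (b j)) • D j) g =
        ∑ j ∈ s, D' (algebraMap k K (b j)) * D j g := by
      intro s
      induction s using Finset.induction_on with
      | empty => rfl
      | insert a s ha ih =>
        rw [Finset.sum_insert ha, Finset.sum_insert ha, Derivation.add_apply, ih]
        rfl
    rw [hE]
    simp only [Derivation.sub_apply, Derivation.smul_apply, smul_eq_mul, hδ', hsum]
  have hEb : ∀ i, E (algebraMap k K (b i)) = 0 := by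
    intro i
    rw [hEval, Derivation.map_algebraMap]
    simp only [hDb]
    simp
  have hET : E T = 0 := by
    rw [hEval, hδT]
    simp only [hDT]
    simp
    field_simp
    simp
  -- `E` kills `k`
  have hEk : ∀ c : k, E (algebraMap k K c) = 0 := by
    intro c
    have h5 : ∀ d ∈ adjoin k0 (Set.range b), E (algebraMap k K d) = 0 := by
      refine DER_ker k0 k K E (Set.range b) ?_
      rintro _ ⟨i, rfl⟩
      exact hEb i
    obtain ⟨E1, hE1⟩ := DER_up k0 (adjoin k0 (Set.range b)) K E (fun d => h5 d.1 d.2)
    have hch : CharZero (adjoin k0 (Set.range b)) :=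
      (algebraMap (adjoin k0 (Set.range b)) k).charZero
    have h6 : IsAlgebraic (adjoin k0 (Set.range b)) c := hb.alg.isAlgebraic c
    have h7 : IsAlgebraic (adjoin k0 (Set.range b)) (algebraMap k K c) := h6.algebraMap
    rw [← hE1]
    exact hALG.1 _ K E1 _ h7
  obtain ⟨E2, hE2⟩ := DER_up k0 k K E hEk
  have h8 : ∀ d ∈ adjoin k ({T} : Set K), E2 (algebraMap K K d) = 0 := by
    refine DER_ker k K K E2 {T} ?_
    intro c hc
    rw [Set.mem_singleton_iff] at hc
    rw [hc]
    change E2 T = 0
    rw [hE2, hET]
  obtain ⟨E3, hE3⟩ := DER_up k (adjoin k ({T} : Set K)) K E2 (fun d => h8 d.1 d.2)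
  have hch : CharZero (adjoin k ({T} : Set K)) := (algebraMap (adjoin k ({T} : Set K)) K).charZero
  have hfin : FiniteDimensional (adjoin k ({T} : Set K)) K := hFFT k K hK T hT
  have h9 : IsAlgebraic (adjoin k ({T} : Set K)) f := Algebra.IsAlgebraic.isAlgebraic f
  have h10 : E f = 0 := by
    rw [← hE2, ← hE3]
    exact hALG.1 _ K E3 _ h9
  rw [hEval] at h10
  linear_combination h10

end Pool.Agent.Helper8.SPV
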