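import Pool.Agent.Helper8.SPV.Stmts

/-! # Module DERALG: derivations and algebraic elements -/

set_option autoImplicit false

namespace Pool.Agent.Helper8.SPV

open Polynomial in
theorem DERALG_one (F K : Type) [Field F] [Field K] [CharZero F] [Algebra F K]
    (D : Derivation F K K) (a : K) (ha : IsAlgebraic F a) : D a = 0 := by
  have hi : IsIntegral F a := ha.isIntegral
  have hs : (minpoly F a).Separable := (minpoly.irreducible hi).separable
  have h1 : aeval a (derivative (minpoly F a)) ≠ 0 :=
    hs.aeval_derivative_ne_zero (minpoly.aeval F a)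
  have h2 : D (aeval a (minpoly F a)) = aeval a (derivative (minpoly F a)) • D a :=
    D.map_aeval _ _
  rw [minpoly.aeval, map_zero, smul_eq_mul] at h2
  exact (mul_eq_zero.1 h2.symm).resolve_left h1

open Polynomial in
theorem DERALG_poly (K : Type) [Field K] (D : Derivation ℤ K K) (S C : Subfield K)
    (hSC : S ≤ C) (hS : ∀ c ∈ S, D c ∈ S) (a : K) (ha : a ∈ C) (p : S[X]) :
    ∃ e ∈ C, D (aeval a p) = e + aeval a (derivative p) * D a := by
  induction p using Polynomial.induction_on with
  | C c =>
    refine ⟨D (c : K), hSC (hS c c.2), ?_⟩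
    rw [aeval_C, derivative_C, map_zero, zero_mul, add_zero]
    rfl
  | add p q hp hq =>
    obtain ⟨e1, he1, h1⟩ := hp
    obtain ⟨e2, he2, h2⟩ := hq
    refine ⟨e1 + e2, add_mem he1 he2, ?_⟩
    rw [map_add, map_add, h1, h2, derivative_add, map_add]
    ring
  | monomial n c hn =>
    obtain ⟨e, he, h⟩ := hn
    refine ⟨a * e, mul_mem ha he, ?_⟩
    have h1 : (Polynomial.C c : S[X]) * X ^ (n + 1) = (Polynomial.C c * X ^ n) * X := by ring
    rw [h1]
    generalize (Polynomial.C c : S[X]) * X ^ n = q at h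
    rw [map_mul, aeval_X, D.leibniz, h, derivative_mul, derivative_X, mul_one, map_add, map_mul,
      aeval_X]
    simp only [smul_eq_mul]
    ring

theorem DERALG_two (K : Type) [Field K] [CharZero K] (D : Derivation ℤ K K) (S : Subfield K)
    (hS : ∀ c ∈ S, D c ∈ S) (A : Set K) (hA : ∀ a ∈ A, IsAlgebraic S a) :
    ∀ c ∈ Subfield.closure ((S : Set K) ∪ A), D c ∈ Subfield.closure ((S : Set K) ∪ A) := by
  set C := Subfield.closure ((S : Set K) ∪ A) with hC
  have hsub : (S : Set K) ∪ A ⊆ C := Subfield.subset_closure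
  have hSC : S ≤ C := fun c hc => hsub (Or.inl hc)
  have hgen : ∀ a ∈ A, D a ∈ C := by
    intro a ha
    have haC : a ∈ C := hsub (Or.inr ha)
    obtain ⟨e, he, h⟩ := DERALG_poly K D S C hSC hS a haC (minpoly S a)
    have hi : IsIntegral S a := (hA a ha).isIntegral
    have hs : (minpoly S a).Separable := (minpoly.irreducible hi).separable
    have h1 : Polynomial.aeval a (Polynomial.derivative (minpoly S a)) ≠ 0 :=
      hs.aeval_derivative_ne_zero (minpoly.aeval S a)
    rw [minpoly.aeval, map_zero] at h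
    have hmem : Polynomial.aeval a (Polynomial.derivative (minpoly S a)) ∈ C := by
      rw [Polynomial.aeval_eq_sum_range]
      refine sum_mem fun i _ => ?_
      rw [Algebra.smul_def]
      exact mul_mem (hSC (Subtype.mem _)) (pow_mem haC i)
    have h2 : D a = -e / Polynomial.aeval a (Polynomial.derivative (minpoly S a)) := by
      rw [eq_div_iff h1]
      linear_combination -h
    rw [h2]
    exact div_mem (neg_mem he) hmem
  intro c hc
  have hc2 := hc
  rw [hC] at hc2
  refine (Subfield.closure_induction (p := fun c _ => c ∈ C ∧ D c ∈ C) ?_ ?_ ?_ ?_ ?_ ?_ hc2).2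
  · intro x hx
    refine ⟨hsub hx, ?_⟩
    rcases hx with hx | hx
    · exact hSC (hS x hx)
    · exact hgen x hx
  · exact ⟨one_mem _, by rw [Derivation.map_one_eq_zero]; exact zero_mem _⟩
  · intro x y _ _ hx hy
    exact ⟨add_mem hx.1 hy.1, by rw [map_add]; exact add_mem hx.2 hy.2⟩
  · intro x _ hx
    exact ⟨neg_mem hx.1, by rw [map_neg]; exact neg_mem hx.2⟩
  · intro x _ hx
    refine ⟨inv_mem hx.1, ?_⟩
    rw [Derivation.leibniz_inv]
    simp only [smul_eq_mul]
    exact mul_mem (neg_mem (pow_mem (inv_mem hx.1) _)) hx.2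
  · intro x y _ _ hx hy
    refine ⟨mul_mem hx.1 hy.1, ?_⟩
    rw [Derivation.leibniz]
    simp only [smul_eq_mul]
    exact add_mem (mul_mem hx.1 hy.2) (mul_mem hy.1 hx.2)

theorem st_DERALG : ST_DERALG :=
  ⟨fun F K _ _ _ _ D a ha => DERALG_one F K D a ha,
    fun K _ _ D S hS A hA => DERALG_two K D S hS A hA⟩

end Pool.Agent.Helper8.SPV
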