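import Pool.Agent.Helper67.SPV.DER

/-! # Module PD: the partial derivatives -/

set_option autoImplicit false

namespace Pool.Agent.Helper8.SPV

open IntermediateField (adjoin)

open scoped IntermediateField.algebraAdjoinAdjoin in
theorem PD_alg (F K : Type) [Field F] [Field K] [Algebra F K] (s : Set K) (z : K)
    (h : IsAlgebraic (adjoin F s) z) : IsAlgebraic (Algebra.adjoin F s) z :=
  (IsFractionRing.isAlgebraic_iff (Algebra.adjoin F s) (adjoin F s) K).2 h

theorem st_PD (hEXT : ST_DEREXT) : ST_PD := by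
  intro k0 k _ _ _ _ b hb
  classical
  have hex : ∀ j : Fin 10, ∃ P : Derivation k0 k k, ∀ i, P (b i) = if i = j then 1 else 0 := by
    intro j
    have ht : Transcendental (Algebra.adjoin k0 (b '' {j}ᶜ)) (b j) :=
      hb.indep.transcendental_adjoin (by simp)
    have ht2 : Transcendental (adjoin k0 (b '' {j}ᶜ)) (b j) := fun h => ht (PD_alg k0 k _ _ h)
    have hch : CharZero (adjoin k0 (b '' {j}ᶜ)) := (algebraMap (adjoin k0 (b '' {j}ᶜ)) k).charZero
    obtain ⟨D, hD, hDb⟩ := (hEXT (adjoin k0 (b '' {j}ᶜ)) k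
      (0 : Derivation ℤ (adjoin k0 (b '' {j}ᶜ)) k)).2 (b j) ht2 1
    have hD0 : ∀ c ∈ adjoin k0 (b '' {j}ᶜ), D c = 0 := by
      intro c hc
      have := hD ⟨c, hc⟩
      simpa using this
    obtain ⟨P, hP⟩ := DER_up ℤ k0 k D (fun c => hD0 _ (algebraMap_mem _ c))
    refine ⟨P, fun i => ?_⟩
    rw [hP]
    split_ifs with hij
    · rw [hij, hDb]
    · exact hD0 _ (IntermediateField.subset_adjoin k0 _ ⟨i, hij, rfl⟩)
  choose P hP using hex
  exact ⟨P, fun i j => hP j i⟩

end Pool.Agent.Helper8.SPV
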